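import Pool.Agent.Y8.EP.Stm6
import Pool.Agent.Y340.EP.P3

/-! Stage EP6: the endpoint stage in terms of the coefficients (adapted from
`Pool.Agent.Y5.G.Ex` and `Pool.Agent.Y340.EP.P3`). -/

open Set Filter Topology MeasureTheory

set_option autoImplicit false

namespace Pool.Agent.Y210.EP

open Pool.Agent.Y5 Pool.Agent.Y5.D Pool.Agent.Y5.E Pool.Agent.Y5.F Pool.Agent.Y5.G
open Pool.Agent.Y274.NE Pool.Agent.Y8.EP Pool.Agent.Y340.EP
open Pool.Agent.Y275.ND (syn)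

theorem t_EXA6 : S_EXA6 := by
  intro hF hB hC ν α hν hα hα1
  obtain ⟨J, g, κ, μ, lam, Λ, M, F, L, C, ℓ, N, G, B, e, hc, hS, hK⟩ := hC ν α hν hα hα1
  have hD := diss hF hc hS hK hν hα (by linarith)
  obtain ⟨M', h⟩ := bs_of hc hS hK
  obtain ⟨T, z, hT, hsol, hinit, hreg, huniq, hen, hder, hgrow⟩ :=
    hB J g κ μ lam Λ M L C ℓ B _ hK hS
  have hL1 := L_one hS
  -- decay of the coefficients
  have hdec : ∀ T' < T, ∀ k : ℕ, ∃ Mk, ∀ t ∈ Icc 0 T', ∀ a, L (gr g a) ^ k * |z a t| ≤ Mk := by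
    intro T' hT' k
    obtain ⟨Mk, hMk⟩ := hreg k T' hT'
    refine ⟨√Mk, fun t ht a => ?_⟩
    obtain ⟨h1, h2⟩ := hMk t ht
    have h3 := h1.le_tsum a (fun _ _ => sq_nonneg _)
    have h4 : (L (gr g a) ^ k * z a t) ^ 2 ≤ Mk := h3.trans h2
    have h5 := Real.abs_le_sqrt h4
    rwa [abs_mul, abs_of_nonneg (pow_nonneg (by linarith [hL1 (gr g a)]) k)] at h5
  have hrapz : ∀ t ∈ Ico 0 T, ∀ p : ℕ, ∃ Cp, ∀ a, L (gr g a) ^ p * |z a t| ≤ Cp := by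
    intro t ht p
    obtain ⟨Mk, hMk⟩ := hdec t ht.2 p
    exact ⟨Mk, hMk t ⟨ht.1, le_rfl⟩⟩
  have hgood : ∀ t ∈ Ico 0 T, Summable (fun a => |z a t| * M' (gr g a)) :=
    fun t ht => good_of_rap h (hrapz t ht)
  set V : ℝ → Fam := fun t => syn e (fun a => z a t) with hVdef
  have hVb : ∀ m : ℕ, ∀ T' < T, ∃ Mb, ∀ t ∈ Icc 0 T', ∀ k, ‖vec k‖ ^ m * ‖V t k‖ ≤ Mb := by
    intro m T' hT'
    obtain ⟨Mk, hMk⟩ := hdec T' hT' (4 * (m + 1) + 5)
    refine ⟨Mk * M' 0 ^ (m + 1) * ∑' a : Ix J, 1 / L (gr g a) ^ 5, fun t ht k => ?_⟩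
    have ht' : t ∈ Ico 0 T := ⟨ht.1, lt_of_le_of_lt ht.2 hT'⟩
    have h1 := sum_of_dec h (m + 1) Mk (fun a => z a t) (hMk t ht)
    exact (syn_norm h m (hgood t ht') h1.1 k).trans h1.2
  have hVot : ∀ t ∈ Ico 0 T, OT (V t) := fun t ht => syn_ot h (hgood t ht)
  have hVrap : ∀ t ∈ Ico 0 T, Rap (V t) := fun t ht => rap_syn h (hrapz t ht)
  have hpz : ∀ t ∈ Ico 0 T, ∀ a, pair (V t) (e a) = z a t :=
    fun t ht a => pair_syn_e h (hgood t ht) a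
  refine ⟨J, g, L, M', e, dF ℓ (Sd κ μ L) g, T, V, h, hD, ?_, hT, ⟨hVot, hVb, ?_⟩, ?_, ?_, ?_⟩
  · exact ⟨Real.exp μ, fun a => dF_le' hS a⟩
  · intro i t ht
    have h1 := hsol.deriv i t ht
    have h2 : HasDerivWithinAt (fun τ => pair (V τ) (e i))
        (-(dF ℓ (Sd κ μ L) g i * z i t) +
          bl (fun j a b => bil (e a) (e b) (e j)) (fun a => z a t) (fun a => z a t) i)
        (Ico 0 T) t :=
      h1.congr (fun τ hτ => hpz τ hτ i) (hpz t ht i)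
    refine h2.congr_deriv ?_
    rw [hpz t ht i, bil_syn h (hgood t ht) i]
  · -- initial datum
    intro k
    show syn e (fun a => z a 0) k = e (Sum.inl 0) k
    rw [syn_init hinit.1 hinit.2.1 hinit.2.2]
  · -- energy identity
    intro t ht
    obtain ⟨h1, h2⟩ := hder t ht
    have hpar : ∀ τ ∈ Ico 0 T, pair (V τ) (V τ) = ∑' a, z a τ ^ 2 :=
      fun τ hτ => pair_self h (hgood τ hτ)
    have h3 := h2.congr (fun τ hτ => hpar τ hτ) (hpar t ht)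
    refine h3.congr_deriv ?_
    simp only [hpz t ht]
  · -- blow-up
    intro Mb
    obtain ⟨n, hn⟩ := N_unbounded hc hS (2000 * Mb)
    obtain ⟨t, ht, A, hA, hx, hlo, hw, hY⟩ := hgrow n
    have hκ0 := hS.κ0
    have hA0 : 0 ≤ A := le_trans (by positivity) hA
    obtain ⟨y, hy⟩ := blow_lower hc h hS z t (hgood t ht) (hen t ht).1 n A hA0 hx hlo hw hY
    refine ⟨t, ht, y, ?_⟩
    have h5 : A * N n / 2000 ≤ ‖fieldOf (V t) y‖ := hy
    have h6 := N_one hc hS n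
    have h7 : (9 / 1000 * κ) ^ n * N n ≤ A * N n := mul_le_mul_of_nonneg_right hA (by linarith)
    linarith

end Pool.Agent.Y210.EP
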